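import Pool.Agent.Helper17.FQMain

/-!
Every Fourier quasicrystal set in `ℝ^d` is the set of common zeros in `ℂ^d` of a finite real-rooted
system of trigonometric equations.
-/

open FQ in
theorem Pool.Agent.Results.MP_9dd525_an.AllFQSets.result (d : ℕ)
    (S : Set (EuclideanSpace ℝ (Fin d))) (hS : IsFQ S) :
    ∃ (m : ℕ) (f : Fin m → (Fin d → ℂ) → ℂ), (∀ i, IsTrig (f i)) ∧
      (∀ z : Fin d → ℂ, (∀ i, f i z = 0) → ∀ j, (z j).im = 0) ∧
      {z : Fin d → ℂ | ∀ i, f i z = 0} = {z | ∃ x ∈ S, ∀ j, z j = ((x j : ℝ) : ℂ)} := by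
  obtain ⟨m, f, hf, hz⟩ := FQ.main S hS
  refine ⟨m, f, hf, fun z h j => ?_, Set.ext fun z => hz z⟩
  obtain ⟨x, _, hx⟩ := (hz z).mp h
  rw [hx j, Complex.ofReal_im]
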